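import Mathlib
import Pool.Agent.TH482.HT.Defs

/-!
# One-plane graphs and near-optimal one-plane graphs
-/

set_option autoImplicit false

namespace Pool.Agent.V11120.NO

open TH482.HT

/-- A 1-plane drawing: a drawing on the sphere in which every edge is crossed at most once and
crossing edges have no common vertex. -/
structure OnePlane {V : Type} {G : SimpleGraph V} (𝒟 : Drawing G) : Prop where
  plane : 𝒟.OnSurface 0
  once : ∀ d, 𝒟.pos d ≤ 1
  indep : ∀ d, 0 < 𝒟.pos d → Indep (𝒟.src d) (𝒟.tgt d) (𝒟.src (𝒟.rot d)) (𝒟.tgt (𝒟.rot d))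

/-- The dart `d` is a piece of an edge that is crossed. -/
def Crossed {V : Type} {G : SimpleGraph V} (𝒟 : Drawing G) (d : 𝒟.D) : Prop :=
  0 < 𝒟.pos d ∨ 0 < 𝒟.pos (𝒟.rev d)

/-- The faces of the drawing to the right of the two darts lie in the same face of the plane
subgraph `H` of all edges that are not crossed: one gets from the one to the other by going along
the boundaries of faces of the drawing and by stepping over pieces of crossed edges. -/
def SameFace {V : Type} {G : SimpleGraph V} (𝒟 : Drawing G) : 𝒟.D → 𝒟.D → Prop :=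
  Relation.EqvGen fun a b => b = 𝒟.rot (𝒟.rev a) ∨ (Crossed 𝒟 a ∧ b = 𝒟.rev a)

/-- The boundary of the face of `H` to the right of the dart `d`: the set of the directed
uncrossed edges which have this face on their right side. -/
def boundary {V : Type} {G : SimpleGraph V} (𝒟 : Drawing G) (d : 𝒟.D) : Set (V × V) :=
  {p | ∃ e, SameFace 𝒟 d e ∧ ¬ Crossed 𝒟 e ∧ p = (𝒟.src e, 𝒟.tgt e)}

/-- The face of `H` to the right of the dart `d` is triangular: it is bounded by a 3-cycle (and it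
contains no crossing). -/
def TriangularFace {V : Type} {G : SimpleGraph V} (𝒟 : Drawing G) (d : 𝒟.D) : Prop :=
  (∃ a b c : V, a ≠ b ∧ a ≠ c ∧ b ≠ c ∧ boundary 𝒟 d = {(a, b), (b, c), (c, a)}) ∧
    ∀ e, SameFace 𝒟 d e → ¬ Crossed 𝒟 e

/-- The face of `H` to the right of the dart `d` is quadrangular: it is bounded by a 4-cycle
`v₀v₁v₂v₃`, and it contains exactly one crossing, in which `v₀v₂` and `v₁v₃` cross. -/
def QuadrangularFace {V : Type} {G : SimpleGraph V} (𝒟 : Drawing G) (d : 𝒟.D) : Prop :=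
  ∃ v₀ v₁ v₂ v₃ : V, v₀ ≠ v₁ ∧ v₀ ≠ v₂ ∧ v₀ ≠ v₃ ∧ v₁ ≠ v₂ ∧ v₁ ≠ v₃ ∧ v₂ ≠ v₃ ∧
    boundary 𝒟 d = {(v₀, v₁), (v₁, v₂), (v₂, v₃), (v₃, v₀)} ∧
    ∃ x, SameFace 𝒟 d x ∧ 0 < 𝒟.pos x ∧ s(𝒟.src x, 𝒟.tgt x) = s(v₀, v₂) ∧
      s(𝒟.src (𝒟.rot x), 𝒟.tgt (𝒟.rot x)) = s(v₁, v₃) ∧
      ∀ y, SameFace 𝒟 d y → 0 < 𝒟.pos y → 𝒟.rot.SameCycle x y

/-- A near-optimal 1-plane graph. -/
structure NearOptimal {V : Type} {G : SimpleGraph V} (𝒟 : Drawing G) : Prop where
  onePlane : OnePlane 𝒟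
  /-- every face of `H` is triangular or quadrangular, and each quadrangular face contains exactly
  the crossing point of a crossing pair -/
  faces : ∀ d, TriangularFace 𝒟 d ∨ QuadrangularFace 𝒟 d
  /-- no two triangular faces share an edge -/
  apart : ∀ d, ¬ Crossed 𝒟 d → ¬ (TriangularFace 𝒟 d ∧ TriangularFace 𝒟 (𝒟.rev d))

end Pool.Agent.V11120.NO
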