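import Pool.Agent.V11120.NO.Data
import Pool.Agent.V11120.NO.Defs

/-!
# Two drawings of a graph on eight vertices
-/

set_option autoImplicit false
set_option maxRecDepth 100000

namespace Pool.Agent.V11120.NO

open Equiv TH482.HT Pool.Agent.V11120.Build

/-- the graph with eight vertices and 22 edges -/
def G8 : SimpleGraph (Fin 8) where
  Adj u v := tAdj.testBit (8 * u.1 + v.1) = true
  symm := ⟨by decide +kernel⟩
  loopless := ⟨by decide +kernel⟩

instance : DecidableRel G8.Adj := fun u v =>
  inferInstanceAs (Decidable (tAdj.testBit (8 * u.1 + v.1) = true))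

/-- table lookup -/
def tab (N n : ℕ) [NeZero n] (i : ℕ) : Fin n := Fin.ofNat n (look N 8 i)

/-! ### The near-optimal drawing -/

/-- rotation -/
def rotA : Perm (Fin 60) where
  toFun d := tab taRot 60 d.1
  invFun d := tab taInv 60 d.1
  left_inv := by
    show ∀ d : Fin 60, tab taInv 60 (tab taRot 60 d.1).1 = d
    decide +kernel
  right_inv := by
    show ∀ d : Fin 60, tab taRot 60 (tab taInv 60 d.1).1 = d
    decide +kernel

/-- reversal -/
def revA : Perm (Fin 60) where
  toFun d := tab taRev 60 d.1
  invFun d := tab taRev 60 d.1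
  left_inv := by
    show ∀ d : Fin 60, tab taRev 60 (tab taRev 60 d.1).1 = d
    decide +kernel
  right_inv := by
    show ∀ d : Fin 60, tab taRev 60 (tab taRev 60 d.1).1 = d
    decide +kernel

/-- source -/
def srcA (d : Fin 60) : Fin 8 := tab taSrc 8 d.1
/-- target -/
def tgtA (d : Fin 60) : Fin 8 := tab taTgt 8 d.1
/-- position -/
def posA (d : Fin 60) : ℕ := look taPos 8 d.1

/-- the drawing -/
def DA : Drawing G8 :=
  mk G8 60 rotA revA srcA tgtA posA (fun u v => tab taFirst 60 (8 * u.1 + v.1))
    (fun u => tab taVrep 60 u.1) (fun d => look taIx 8 d.1) (fun d => look taDep 8 d.1) 0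
    (by decide +kernel) (by decide +kernel) (by decide +kernel) (by decide +kernel)
    (by decide +kernel) (by decide +kernel) (by decide +kernel) (by decide +kernel)
    (by decide +kernel) (by decide +kernel) (by decide +kernel) (by decide +kernel)

theorem planeA : DA.OnSurface 0 := by
  have h1 : 12 ≤ numOrbits rotA := le_numOrbits rotA 12 (fun d => tab taVid 12 d.1)
    (by decide +kernel) (fun i => tab taVrep 60 i.1) (by decide +kernel)
  have h2 : 20 ≤ numOrbits (rotA * revA) := le_numOrbits (rotA * revA) 20
    (fun d => tab taFace 20 d.1)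
    (by
      show ∀ d : Fin 60, tab taFace 20 (rotA (revA d)).1 = tab taFace 20 d.1
      decide +kernel) (fun i => tab taFrep 60 i.1) (by decide +kernel)
  have h3 := Maps.card_eq_two_mul (α := revA) DA.rev_rev DA.rev_ne
  rw [Fintype.card_fin] at h3
  have h4 : Maps.numOrbits revA = numOrbits revA := rfl
  have h5 : DA.euler = (numOrbits rotA : ℤ) - (numOrbits revA : ℤ) +
    (numOrbits (rotA * revA) : ℤ) := rfl
  unfold SurfaceMap.OnSurface
  rw [h5]
  push_cast
  omega

/-! ### The drawing with a further edge -/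

/-- the graph with the further edge -/
abbrev G8' : SimpleGraph (Fin 8) := G8 ⊔ SimpleGraph.edge 1 3

/-- rotation -/
def rotB : Perm (Fin 66) where
  toFun d := tab tbRot 66 d.1
  invFun d := tab tbInv 66 d.1
  left_inv := by
    show ∀ d : Fin 66, tab tbInv 66 (tab tbRot 66 d.1).1 = d
    decide +kernel
  right_inv := by
    show ∀ d : Fin 66, tab tbRot 66 (tab tbInv 66 d.1).1 = d
    decide +kernel

/-- reversal -/
def revB : Perm (Fin 66) where
  toFun d := tab tbRev 66 d.1
  invFun d := tab tbRev 66 d.1
  left_inv := by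
    show ∀ d : Fin 66, tab tbRev 66 (tab tbRev 66 d.1).1 = d
    decide +kernel
  right_inv := by
    show ∀ d : Fin 66, tab tbRev 66 (tab tbRev 66 d.1).1 = d
    decide +kernel

/-- source -/
def srcB (d : Fin 66) : Fin 8 := tab tbSrc 8 d.1
/-- target -/
def tgtB (d : Fin 66) : Fin 8 := tab tbTgt 8 d.1
/-- position -/
def posB (d : Fin 66) : ℕ := look tbPos 8 d.1

/-- adjacency in the larger graph -/
def adjB (u v : Fin 8) : Bool :=
  tAdj.testBit (8 * u.1 + v.1) || (u == 1 && v == 3) || (u == 3 && v == 1)

theorem adj_iff (u v : Fin 8) : G8'.Adj u v ↔ adjB u v = true := by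
  rw [SimpleGraph.sup_adj, SimpleGraph.edge_adj]
  have : ∀ u v : Fin 8, (tAdj.testBit (8 * u.1 + v.1) = true ∨
      ((u = 1 ∧ v = 3 ∨ u = 3 ∧ v = 1) ∧ u ≠ v)) ↔ adjB u v = true := by decide +kernel
  exact this u v

/-- the drawing -/
def DB : Drawing G8' :=
  mk G8' 66 rotB revB srcB tgtB posB (fun u v => tab tbFirst 66 (8 * u.1 + v.1))
    (fun u => tab tbVrep 66 u.1) (fun d => look tbIx 8 d.1) (fun d => look tbDep 8 d.1) 0
    (by decide +kernel) (by decide +kernel) (by decide +kernel)
    (by
      simp only [adj_iff]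
      decide +kernel)
    (by decide +kernel)
    (by
      simp only [adj_iff]
      decide +kernel)
    (by decide +kernel) (by decide +kernel)
    (by decide +kernel) (by decide +kernel) (by decide +kernel) (by decide +kernel)

theorem planeB : DB.OnSurface 0 := by
  have h1 : 13 ≤ numOrbits rotB := le_numOrbits rotB 13 (fun d => tab tbVid 13 d.1)
    (by decide +kernel) (fun i => tab tbVrep 66 i.1) (by decide +kernel)
  have h2 : 22 ≤ numOrbits (rotB * revB) := le_numOrbits (rotB * revB) 22
    (fun d => tab tbFace 22 d.1)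
    (by
      show ∀ d : Fin 66, tab tbFace 22 (rotB (revB d)).1 = tab tbFace 22 d.1
      decide +kernel) (fun i => tab tbFrep 66 i.1) (by decide +kernel)
  have h3 := Maps.card_eq_two_mul (α := revB) DB.rev_rev DB.rev_ne
  rw [Fintype.card_fin] at h3
  have h4 : Maps.numOrbits revB = numOrbits revB := rfl
  have h5 : DB.euler = (numOrbits rotB : ℤ) - (numOrbits revB : ℤ) +
    (numOrbits (rotB * revB) : ℤ) := rfl
  unfold SurfaceMap.OnSurface
  rw [h5]
  push_cast
  omega

instance (u v u' v' : Fin 8) : Decidable (Indep u v u' v') :=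
  inferInstanceAs (Decidable (u ≠ u' ∧ u ≠ v' ∧ v ≠ u' ∧ v ≠ v'))

theorem onePlaneA : OnePlane DA where
  plane := planeA
  once := by
    show ∀ d, posA d ≤ 1
    decide +kernel
  indep := by
    show ∀ d, 0 < posA d → Indep (srcA d) (tgtA d) (srcA (rotA d)) (tgtA (rotA d))
    decide +kernel

theorem onePlaneB : OnePlane DB where
  plane := planeB
  once := by
    show ∀ d, posB d ≤ 1
    decide +kernel
  indep := by
    show ∀ d, 0 < posB d → Indep (srcB d) (tgtB d) (srcB (rotB d)) (tgtB (rotB d))
    decide +kernel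

/-! ### Faces of the subgraph of the uncrossed edges -/

/-- pieces of crossed edges -/
def crA (d : Fin 60) : Bool := decide (0 < posA d) || decide (0 < posA (revA d))

theorem crA_iff (d : Fin 60) : Crossed DA d ↔ crA d = true := by
  show (0 < posA d ∨ 0 < posA (revA d)) ↔ _
  unfold crA
  rw [Bool.or_eq_true, decide_eq_true_eq, decide_eq_true_eq]

/-- the face of the uncrossed subgraph -/
def labA (d : Fin 60) : Fin 8 := tab taLab 8 d.1
/-- the depth -/
def ldA (d : Fin 60) : ℕ := look taLdep 8 d.1
/-- the representative -/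
def lrA (f : Fin 8) : Fin 60 := tab taLrep 60 f.1

theorem sameFace_iff (a b : Fin 60) : SameFace DA a b ↔ labA a = labA b := by
  constructor
  · intro h
    induction h with
    | rel a b h =>
      have h1 : ∀ a : Fin 60, labA (rotA (revA a)) = labA a := by decide +kernel
      have h2 : ∀ a : Fin 60, crA a = true → labA (revA a) = labA a := by decide +kernel
      rcases h with h | ⟨h, h'⟩
      · rw [show b = rotA (revA a) from h, h1]
      · rw [show b = revA a from h', h2 _ ((crA_iff a).1 h)]
    | refl a => rfl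
    | symm a b _ ih => exact ih.symm
    | trans a b c _ _ ih1 ih2 => exact ih1.trans ih2
  · intro h
    have key : ∀ n : ℕ, ∀ a : Fin 60, ldA a ≤ n → SameFace DA (lrA (labA a)) a := by
      have hstep : ∀ a : Fin 60, a = lrA (labA a) ∨
          (ldA (rotA (revA a)) < ldA a ∧ labA (rotA (revA a)) = labA a) ∨
          (ldA (revA (rotA.symm a)) < ldA a ∧ labA (revA (rotA.symm a)) = labA a) ∨
          (crA a = true ∧ ldA (revA a) < ldA a ∧ labA (revA a) = labA a) := by
        decide +kernel
      intro n
      induction n with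
      | zero =>
        intro a ha
        rcases hstep a with h | ⟨h, _⟩ | ⟨h, _⟩ | ⟨_, h, _⟩
        · rw [← h]
          exact Relation.EqvGen.refl _
        all_goals omega
      | succ n ih =>
        intro a ha
        rcases hstep a with h | ⟨h, h'⟩ | ⟨h, h'⟩ | ⟨h0, h, h'⟩
        · rw [← h]
          exact Relation.EqvGen.refl _
        · have h2 := ih _ (show ldA (rotA (revA a)) ≤ n by omega)
          rw [h'] at h2
          exact Relation.EqvGen.trans _ _ _ h2 (Relation.EqvGen.symm _ _
            (Relation.EqvGen.rel _ _ (Or.inl rfl)))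
        · have h2 := ih _ (show ldA (revA (rotA.symm a)) ≤ n by omega)
          rw [h'] at h2
          refine Relation.EqvGen.trans _ _ _ h2 (Relation.EqvGen.rel _ _ (Or.inl ?_))
          show a = rotA (revA (revA (rotA.symm a)))
          rw [show revA (revA (rotA.symm a)) = rotA.symm a from DA.rev_rev _]
          simp
        · have h2 := ih _ (show ldA (revA a) ≤ n by omega)
          rw [h'] at h2
          exact Relation.EqvGen.trans _ _ _ h2 (Relation.EqvGen.symm _ _
            (Relation.EqvGen.rel _ _ (Or.inr ⟨(crA_iff a).2 h0, rfl⟩)))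
    have h1 := key _ a le_rfl
    have h2 := key _ b le_rfl
    rw [h] at h1
    exact Relation.EqvGen.trans _ _ _ (Relation.EqvGen.symm _ _ h1) h2

theorem mem_boundary (d : Fin 60) (p : Fin 8 × Fin 8) : p ∈ boundary DA d ↔
    ∃ e : Fin 60, labA d = labA e ∧ crA e = false ∧ p = (srcA e, tgtA e) := by
  constructor
  · rintro ⟨e, h1, h2, h3⟩
    refine ⟨e, (sameFace_iff _ _).1 h1, ?_, h3⟩
    rw [crA_iff] at h2
    simpa using h2
  · rintro ⟨e, h1, h2, h3⟩
    refine ⟨e, (sameFace_iff _ _).2 h1, ?_, h3⟩
    rw [crA_iff, h2]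
    simp

end Pool.Agent.V11120.NO
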