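import Pool.Agent.V11120.NO.Check

/-!
# The first drawing is near-optimal
-/

set_option autoImplicit false
set_option maxRecDepth 100000

namespace Pool.Agent.V11120.NO

open Equiv TH482.HT Pool.Agent.V11120.Build

/-- first vertex of the boundary -/
def w0 (f : Fin 8) : Fin 8 := ![0, 0, 0, 0, 1, 1, 2, 4] f
/-- second vertex of the boundary -/
def w1 (f : Fin 8) : Fin 8 := ![2, 3, 5, 6, 7, 2, 3, 5] f
/-- third vertex of the boundary -/
def w2 (f : Fin 8) : Fin 8 := ![1, 2, 4, 5, 5, 7, 4, 7] f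
/-- fourth vertex of the boundary (first for triangles) -/
def w3 (f : Fin 8) : Fin 8 := ![6, 0, 3, 0, 6, 1, 7, 4] f
/-- quadrangular faces -/
def qd (f : Fin 8) : Bool := ![true, false, true, false, true, false, true, false] f

theorem bd_quad : ∀ f : Fin 8, qd f = true → ∀ p : Fin 8 × Fin 8,
    ((∃ e : Fin 60, f = labA e ∧ crA e = false ∧ p = (srcA e, tgtA e)) ↔
      (p = (w0 f, w1 f) ∨ p = (w1 f, w2 f) ∨ p = (w2 f, w3 f) ∨ p = (w3 f, w0 f))) := by
  decide +kernel

theorem bd_tri : ∀ f : Fin 8, qd f = false → ∀ p : Fin 8 × Fin 8,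
    ((∃ e : Fin 60, f = labA e ∧ crA e = false ∧ p = (srcA e, tgtA e)) ↔
      (p = (w0 f, w1 f) ∨ p = (w1 f, w2 f) ∨ p = (w2 f, w0 f))) := by
  decide +kernel

theorem boundary_quad (d : Fin 60) (h : qd (labA d) = true) : boundary DA d =
    {(w0 (labA d), w1 (labA d)), (w1 (labA d), w2 (labA d)), (w2 (labA d), w3 (labA d)),
      (w3 (labA d), w0 (labA d))} := by
  ext p
  rw [mem_boundary, bd_quad (labA d) h p]
  simp only [Set.mem_insert_iff, Set.mem_singleton_iff]

theorem boundary_tri (d : Fin 60) (h : qd (labA d) = false) : boundary DA d =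
    {(w0 (labA d), w1 (labA d)), (w1 (labA d), w2 (labA d)), (w2 (labA d), w0 (labA d))} := by
  ext p
  rw [mem_boundary, bd_tri (labA d) h p]
  simp only [Set.mem_insert_iff, Set.mem_singleton_iff]

theorem tri (d : Fin 60) (h : qd (labA d) = false) : TriangularFace DA d := by
  refine ⟨⟨w0 (labA d), w1 (labA d), w2 (labA d), ?_⟩, ?_⟩
  · have h1 : ∀ f : Fin 8, w0 f ≠ w1 f ∧ w0 f ≠ w2 f ∧ w1 f ≠ w2 f := by decide +kernel
    exact ⟨(h1 _).1, (h1 _).2.1, (h1 _).2.2, boundary_tri d h⟩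
  · intro e he
    rw [sameFace_iff] at he
    rw [crA_iff]
    have h1 : ∀ e : Fin 60, qd (labA e) = false → crA e = false := by decide +kernel
    rw [h1 e (by rw [← he]; exact h)]
    simp

/-- the crossing in a quadrangular face -/
def xA (f : Fin 8) : Fin 60 :=
  (List.finRange 60).find? (fun e => decide (labA e = f ∧ 0 < posA e ∧ srcA e = w0 f)) |>.getD 0

theorem quad (d : Fin 60) (h : qd (labA d) = true) : QuadrangularFace DA d := by
  have h1 : ∀ f : Fin 8, qd f = true → w0 f ≠ w1 f ∧ w0 f ≠ w2 f ∧ w0 f ≠ w3 f ∧ w1 f ≠ w2 f ∧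
      w1 f ≠ w3 f ∧ w2 f ≠ w3 f ∧ labA (xA f) = f ∧ 0 < posA (xA f) ∧
      s(srcA (xA f), tgtA (xA f)) = s(w0 f, w2 f) ∧
      s(srcA (rotA (xA f)), tgtA (rotA (xA f))) = s(w1 f, w3 f) := by decide +kernel
  have h2 : ∀ y : Fin 60, qd (labA y) = true → 0 < posA y →
      y = xA (labA y) ∨ y = rotA (xA (labA y)) ∨ y = rotA (rotA (xA (labA y))) ∨
        y = rotA (rotA (rotA (xA (labA y)))) := by decide +kernel
  obtain ⟨a1, a2, a3, a4, a5, a6, a7, a8, a9, a10⟩ := h1 _ h
  refine ⟨w0 (labA d), w1 (labA d), w2 (labA d), w3 (labA d), a1, a2, a3, a4, a5, a6,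
    boundary_quad d h, xA (labA d), (sameFace_iff _ _).2 a7.symm, a8, a9, a10, ?_⟩
  intro y hy hp
  have hy' := (sameFace_iff _ _).1 hy
  have h3 := h2 y (by rw [← hy']; exact h) hp
  rw [← hy'] at h3
  rcases h3 with h3 | h3 | h3 | h3
  · exact ⟨0, by rw [h3]; rfl⟩
  · exact ⟨1, by rw [h3]; rfl⟩
  · exact ⟨2, by rw [h3]; rfl⟩
  · exact ⟨3, by rw [h3]; rfl⟩

theorem not_tri (d : Fin 60) (h : qd (labA d) = true) : ¬ TriangularFace DA d := by
  rintro ⟨⟨a, b, c, _, _, _, hb⟩, _⟩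
  have h1 : ∀ f : Fin 8, qd f = true → (w0 f, w1 f) ≠ (w1 f, w2 f) ∧ (w0 f, w1 f) ≠ (w2 f, w3 f) ∧
      (w0 f, w1 f) ≠ (w3 f, w0 f) ∧ (w1 f, w2 f) ≠ (w2 f, w3 f) ∧ (w1 f, w2 f) ≠ (w3 f, w0 f) ∧
      (w2 f, w3 f) ≠ (w3 f, w0 f) := by decide +kernel
  obtain ⟨a1, a2, a3, a4, a5, a6⟩ := h1 _ h
  have h2 := boundary_quad d h
  have h3 : (boundary DA d).ncard = 4 := by
    rw [h2, Set.ncard_insert_of_notMem (by simp only [Set.mem_insert_iff, Set.mem_singleton_iff, not_or]; exact ⟨a1, a2, a3⟩),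
      Set.ncard_insert_of_notMem (by simp only [Set.mem_insert_iff, Set.mem_singleton_iff, not_or]; exact ⟨a4, a5⟩),
      Set.ncard_insert_of_notMem (by simp only [Set.mem_singleton_iff]; exact a6),
      Set.ncard_singleton]
  have h4 : (boundary DA d).ncard ≤ 3 := by
    rw [hb]
    refine (Set.ncard_insert_le _ _).trans ?_
    have := Set.ncard_insert_le ((b, c) : Fin 8 × Fin 8) {(c, a)}
    rw [Set.ncard_singleton] at this
    omega
  omega

theorem near : NearOptimal DA where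
  onePlane := onePlaneA
  faces := by
    intro d
    by_cases h : qd (labA d) = true
    · exact Or.inr (quad d h)
    · exact Or.inl (tri d (by simpa using h))
  apart := by
    intro d hd
    rintro ⟨h1, h2⟩
    have h3 : ∀ d : Fin 60, crA d = false → qd (labA d) = true ∨ qd (labA (revA d)) = true := by
      decide +kernel
    have hd' : crA d = false := by
      have : ¬ Crossed DA d := hd
      rw [crA_iff] at this
      simpa using this
    rcases h3 d hd' with h | h
    · exact not_tri d h h1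
    · exact not_tri (revA d) h h2

end Pool.Agent.V11120.NO
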